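import Pool.Agent.helper97.FQ.PT
import Pool.Agent.helper93.FQ.N3
import Pool.Agent.helper6.FQ.SF
import Pool.Agent.helper54.QR.GB

/-! # Project FQ: D3 (decompositions modulo `D` with three primes) -/

namespace Pool.Agent.helper76.LP

open Finset

/-- `-1` does not lie in the subgroup generated by the `Gam D q`, `q ≠ p` -/
lemma D3_not_mem (D : ℕ) [NeZero D] (hD : D % 4 ≠ 2) (p : ℕ) (hp : p ∈ D.primeFactors)
    (L : List ℕ) (hL : ∀ q ∈ L, q ∈ D.primeFactors ∧ q ≠ p) : (-1 : (ZMod D)ˣ) ∉ Pl (Gam D) L := by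
  intro hmem
  have hpp : p.Prime := Nat.prime_of_mem_primeFactors hp
  have hpd : p ∣ D := Nat.dvd_of_mem_primeFactors hp
  -- the modulus
  obtain ⟨r, hr2, hrD, hrq⟩ : ∃ r : ℕ, 2 < r ∧ r ∣ D ∧ ∀ q, q.Prime → q ≠ p → Nat.Coprime r q := by
    rcases hpp.eq_two_or_odd with h2 | hodd
    · refine ⟨4, by norm_num, ?_, ?_⟩
      · rw [h2] at hpd
        omega
      · intro q hq hqp
        have : Nat.Coprime 2 q := (Nat.coprime_primes Nat.prime_two hq).2 (by rw [← h2]; exact hqp.symm)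
        exact Nat.Coprime.pow_left 2 this
    · refine ⟨p, ?_, hpd, fun q hq hqp => (Nat.coprime_primes hpp hq).2 hqp.symm⟩
      have := hpp.two_le
      omega
  have h1 := Pl_Gam_cast D r hrD L (by
    intro q hq
    obtain ⟨hq1, hq2⟩ := hL q hq
    have hqd : q ∣ D := Nat.dvd_of_mem_primeFactors hq1
    have hqp : q.Prime := Nat.prime_of_mem_primeFactors hq1
    refine ⟨hqd, ?_⟩
    have hc := hrq q hqp hq2
    obtain ⟨k, hk⟩ := hqd
    have h3 : r ∣ q * k := hk ▸ hrD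
    rw [hk, Nat.mul_div_cancel_left _ hqp.pos]
    exact hc.dvd_of_dvd_mul_left h3) (-1) hmem
  have h2 : (-1 : ZMod r) = 1 := by
    have h1b : ZMod.castHom hrD (ZMod r) (-1 : ZMod D) = 1 := by simpa using h1
    rwa [map_neg, map_one] at h1b
  have h3 : ((2 : ℕ) : ZMod r) = 0 := by
    have : (1 : ZMod r) + 1 = 0 := by
      calc (1 : ZMod r) + 1 = -1 + 1 := by rw [h2]
        _ = 0 := by ring
    push_cast
    rw [← this]; norm_num
  rw [ZMod.natCast_eq_zero_iff] at h3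
  exact absurd (Nat.le_of_dvd (by norm_num) h3) (by omega)

theorem ndec_three (D : ℕ) [NeZero D] (hD : D % 4 ≠ 2) (hcard : D.primeFactors.card = 3)
    (h : (∀ p, p.Prime → Odd p → ¬ p ^ 2 ∣ D) ∧ ¬ 8 ∣ D)
    (f : (ZMod D)ˣ → ℤ) (hodd : ∀ x, f (-x) = - f x)
    (hf : ∀ L : List ℕ, L.Nodup → L.toFinset = D.primeFactors → MDv (Gam D) L f) :
    NDec D f := by
  obtain ⟨p, q, r, hpq, hpr, hqr, hset⟩ := Finset.card_eq_three.1 hcard
  have hp : p ∈ D.primeFactors := by rw [hset]; simp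
  have hq : q ∈ D.primeFactors := by rw [hset]; simp
  have hr : r ∈ D.primeFactors := by rw [hset]; simp
  have hnd : [p, q, r].Nodup := by simp [hpq, hpr, hqr]
  have hts : [p, q, r].toFinset = D.primeFactors := by rw [hset]; simp
  have hI : Indep (Gam D) [p, q, r] := indep_Gam D [p, q, r] hnd (by
    intro x hx; rw [← hts]; exact List.mem_toFinset.2 hx)
  have hprod := (eq_prod_lam D hD h).2
  rw [hset, Finset.prod_insert (by simp [hpq, hpr]), Finset.prod_insert (by simp [hqr]),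
    Finset.prod_singleton] at hprod
  have htop := Pl_eq_top (Gam D) [p, q, r] hI (by
    rw [Nat.card_eq_fintype_card, ZMod.card_units_eq_totient, hprod]
    simp)
  have htop' : Gam D p ⊔ (Gam D q ⊔ Gam D r) = ⊤ := by
    have e : Pl (Gam D) [p, q, r] = Gam D p ⊔ (Gam D q ⊔ Gam D r) := by
      simp [Pl]
    rw [← e]; exact htop
  obtain ⟨ν₁, h1, b, hb, hab⟩ := Subgroup.mem_sup.1 (show (-1 : (ZMod D)ˣ) ∈ Gam D p ⊔ (Gam D q ⊔ Gam D r) by
    rw [htop']; trivial)
  obtain ⟨ν₂, h2, ν₃, h3, hbc⟩ := Subgroup.mem_sup.1 hb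
  have hprod1 : ν₁ * ν₂ * ν₃ = -1 := by rw [mul_assoc, hbc, hab]
  -- independence
  have hd1 : Disjoint (Gam D p) (Gam D q ⊔ Gam D r) := by
    have := hI.1
    simpa [Pl] using this
  have hd2 : Disjoint (Gam D q) (Gam D r) := by
    have := hI.2.1
    simpa [Pl] using this
  have hsq : (ν₁ * ν₁) * ((ν₂ * ν₂) * (ν₃ * ν₃)) = 1 := by
    calc (ν₁ * ν₁) * ((ν₂ * ν₂) * (ν₃ * ν₃)) = (ν₁ * ν₂ * ν₃) * (ν₁ * ν₂ * ν₃) := by
          simp only [mul_comm, mul_left_comm, mul_assoc]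
      _ = 1 := by rw [hprod1]; simp
  have hmem23 : (ν₂ * ν₂) * (ν₃ * ν₃) ∈ Gam D q ⊔ Gam D r :=
    Subgroup.mul_mem_sup (mul_mem h2 h2) (mul_mem h3 h3)
  have h11 : ν₁ * ν₁ = 1 := by
    refine Subgroup.disjoint_def.1 hd1 (mul_mem h1 h1) ?_
    rw [eq_inv_of_mul_eq_one_left hsq]
    exact inv_mem hmem23
  have hsq2 : (ν₂ * ν₂) * (ν₃ * ν₃) = 1 := by rwa [h11, one_mul] at hsq
  have h22 : ν₂ * ν₂ = 1 := by
    refine Subgroup.disjoint_def.1 hd2 (mul_mem h2 h2) ?_
    rw [eq_inv_of_mul_eq_one_left hsq2]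
    exact inv_mem (mul_mem h3 h3)
  have h33 : ν₃ * ν₃ = 1 := by rwa [h22, one_mul] at hsq2
  -- nontrivial
  have h10 : ν₁ ≠ 1 := by
    intro h0
    refine D3_not_mem D hD p hp [q, r] (by
      intro x hx
      simp only [List.mem_cons, List.not_mem_nil, or_false] at hx
      rcases hx with rfl | rfl
      · exact ⟨hq, hpq.symm⟩
      · exact ⟨hr, hpr.symm⟩) ?_
    have e : Pl (Gam D) [q, r] = Gam D q ⊔ Gam D r := by simp [Pl]
    rw [e, ← hprod1, h0, one_mul]
    exact Subgroup.mul_mem_sup h2 h3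
  have h20 : ν₂ ≠ 1 := by
    intro h0
    refine D3_not_mem D hD q hq [p, r] (by
      intro x hx
      simp only [List.mem_cons, List.not_mem_nil, or_false] at hx
      rcases hx with rfl | rfl
      · exact ⟨hp, hpq⟩
      · exact ⟨hr, hqr.symm⟩) ?_
    have e : Pl (Gam D) [p, r] = Gam D p ⊔ Gam D r := by simp [Pl]
    rw [e, ← hprod1, h0, mul_one]
    exact Subgroup.mul_mem_sup h1 h3
  have h30 : ν₃ ≠ 1 := by
    intro h0
    refine D3_not_mem D hD r hr [p, q] (by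
      intro x hx
      simp only [List.mem_cons, List.not_mem_nil, or_false] at hx
      rcases hx with rfl | rfl
      · exact ⟨hp, hpr⟩
      · exact ⟨hq, hqr⟩) ?_
    have e : Pl (Gam D) [p, q] = Gam D p ⊔ Gam D q := by simp [Pl]
    rw [e, ← hprod1, h0, mul_one]
    exact Subgroup.mul_mem_sup h1 h2
  obtain ⟨N, hN1, hN2, hN3⟩ := nd_three (Gam D) p q r hpq hpr hqr hI htop' ν₁ ν₂ ν₃ h1 h2 h3 h11 h22
    h33 h10 h20 h30 f (by
      intro x
      rw [hprod1, neg_one_mul]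
      exact hodd x) (hf [p, q, r] hnd hts)
  have hin : ∀ x ∈ D.primeFactors, x ∈ [p, q, r] := by
    intro x hx
    rw [← hts] at hx
    exact List.mem_toFinset.1 hx
  refine ⟨N, fun x hx => hN1 x (hin x hx), fun x => ?_, fun y hy x => ?_⟩
  · rw [hN2 x, hset, Finset.sum_insert (by simp [hpq, hpr]), Finset.sum_insert (by simp [hqr]),
      Finset.sum_singleton]
    simp
  · have := hN3 y (hin y hy) x
    rwa [hprod1, neg_one_mul] at this

end Pool.Agent.helper76.LP
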