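import Pool.Agent.helper76.LP.Defs3

/-! # Project FQ: PU (transport from level `D` to level `m`) -/

namespace Pool.Agent.helper76.LP

open Finset

lemma PU_sum (D m : ℕ) [NeZero D] [NeZero m] {A : Type*} [AddCommGroup A] (e : ZMod D → ℤ)
    (φ : ZMod m → A) : ∑ x, push D m e x • φ x = ∑ y, e y • φ (emb D m y) := by
  unfold push
  simp_rw [Finset.sum_smul]
  rw [Finset.sum_comm]
  apply Finset.sum_congr rfl
  intro z _
  rw [Finset.sum_eq_single (emb D m z)]
  · simp
  · intro x _ hx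
    rw [if_neg (Ne.symm hx), zero_smul]
  · intro h; exact absurd (Finset.mem_univ _) h

theorem push_emb (D m : ℕ) [NeZero D] [NeZero m] (hD : D ∣ m) (e : ZMod D → ℤ) (y : ZMod D) :
    push D m e (emb D m y) = e y := by
  unfold push
  rw [Finset.sum_eq_single y]
  · simp
  · intro w _ hw
    rw [if_neg]
    intro h
    exact hw (emb_injective hD h)
  · intro h; exact absurd (Finset.mem_univ _) h

theorem push_order (D m : ℕ) [NeZero D] [NeZero m] (hD : D ∣ m) (e : ZMod D → ℤ) (x : ZMod m)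
    (hx : push D m e x ≠ 0) : addOrderOf x ∣ D := by
  unfold push at hx
  obtain ⟨y, _, hy⟩ := Finset.exists_ne_zero_of_sum_ne_zero hx
  have h1 : emb D m y = x := by
    by_contra h
    rw [if_neg h] at hy
    exact hy rfl
  rw [← h1, addOrderOf_dvd_iff_nsmul_eq_zero, nsmul_eq_mul, mul_emb hD]
  simp [emb_zero]

theorem anti_push (D m : ℕ) [NeZero D] [NeZero m] (hD : D ∣ m) (e : ZMod D → ℤ) (x : ZMod m) :
    anti (push D m e) x = push D m (anti e) x := by
  have h1 : push D m e (-x) = push D m (fun y => e (-y)) x := by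
    unfold push
    rw [← Equiv.sum_comp (Equiv.neg (ZMod D))]
    apply Finset.sum_congr rfl
    intro z _
    rw [Equiv.neg_apply, emb_neg hD]
    simp
  unfold anti
  rw [h1]
  unfold push
  rw [← Finset.sum_sub_distrib]
  apply Finset.sum_congr rfl
  intro z _
  split_ifs <;> simp

lemma PU_saw (D m : ℕ) [NeZero D] [NeZero m] (hD : D ∣ m) (z : ZMod D) :
    saw m (emb D m z) = ((m / D : ℕ) : ℤ) * saw D z := by
  unfold saw
  by_cases hz : z = 0
  · rw [hz, emb_zero]; simp
  · have h1 : emb D m z ≠ 0 := fun h => hz (emb_injective hD (h.trans emb_zero.symm))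
    rw [if_neg hz, if_neg h1, emb_val hD]
    have h2 : (m : ℤ) = ((m / D : ℕ) : ℤ) * (D : ℤ) := by
      have := Nat.div_mul_cancel hD
      exact_mod_cast this.symm
    conv_lhs => rw [h2]
    push_cast
    ring

theorem tateF_push (D m : ℕ) [NeZero D] [NeZero m] (hD : D ∣ m) (e : ZMod D → ℤ)
    (h : TateF e) : TateF (push D m e) := by
  intro t
  have h1 := PU_sum D m e (fun x => saw m ((t : ZMod m) * x))
  simp only [smul_eq_mul] at h1
  rw [h1]
  have h2 : ∀ y : ZMod D, saw m ((t : ZMod m) * emb D m y) =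
      ((m / D : ℕ) : ℤ) * saw D (((ZMod.unitsMap hD t : (ZMod D)ˣ) : ZMod D) * y) := by
    intro y
    rw [mul_emb hD, PU_saw D m hD]
    rfl
  simp_rw [h2]
  have h3 := h (ZMod.unitsMap hD t)
  calc ∑ y : ZMod D, e y * (((m / D : ℕ) : ℤ) * saw D (((ZMod.unitsMap hD t : (ZMod D)ˣ) : ZMod D) * y))
      = ((m / D : ℕ) : ℤ) * ∑ y : ZMod D, e y * saw D (((ZMod.unitsMap hD t : (ZMod D)ˣ) : ZMod D) * y) := by
        rw [Finset.mul_sum]
        exact Finset.sum_congr rfl fun y _ => by ring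
    _ = 0 := by rw [h3, mul_zero]

theorem cls_push (D m : ℕ) [NeZero D] [NeZero m] (hD : D ∣ m) (e : ZMod D → ℤ) :
    cls m (push D m e) = cls D e := by
  unfold cls
  rw [PU_sum D m e (fun x => cl m x)]
  apply Finset.sum_congr rfl
  intro y _
  congr 1
  unfold cl
  congr 1
  rw [emb_val hD]
  have hm : (m : ℚ) ≠ 0 := Nat.cast_ne_zero.2 (NeZero.ne m)
  have hd : (D : ℚ) ≠ 0 := Nat.cast_ne_zero.2 (NeZero.ne D)
  have h2 : (m : ℚ) = ((m / D : ℕ) : ℚ) * (D : ℚ) := by
    have := Nat.div_mul_cancel hD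
    exact_mod_cast this.symm
  have h3 : ((m / D : ℕ) : ℚ) ≠ 0 := by
    intro h0
    rw [h0, zero_mul] at h2
    exact hm h2
  push_cast [Nat.cast_mul]
  rw [h2]
  field_simp

end Pool.Agent.helper76.LP
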